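import Mathlib

/-!
The no-retraction theorem in a finite-dimensional real inner product space, by the volume argument
of Milnor and Rogers.
-/

open MeasureTheory Set Metric Polynomial Filter Topology

namespace Pool.Agent.Helper44.Brouwer

/-- the determinant of `1 + t • A` is a polynomial function of `t` of degree at most `dim E`. -/
theorem exists_poly_det {E : Type*} [AddCommGroup E] [Module ℝ E] [FiniteDimensional ℝ E]
    (A : E →ₗ[ℝ] E) : ∃ q : ℝ[X], q.natDegree ≤ Module.finrank ℝ E ∧
      ∀ t : ℝ, q.eval t = LinearMap.det (1 + t • A) := by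
  classical
  let b := Module.finBasis ℝ E
  let M := LinearMap.toMatrix b b A
  refine ⟨Matrix.det ((X : ℝ[X]) • M.map C + (1 : Matrix _ _ ℝ).map C), ?_, ?_⟩
  · have := Polynomial.natDegree_det_X_add_C_le M (1 : Matrix _ _ ℝ)
    simpa using this
  · intro t
    rw [← LinearMap.det_toMatrix b, ← Polynomial.coe_evalRingHom, RingHom.map_det]
    have h1 : LinearMap.toMatrix b b (1 : E →ₗ[ℝ] E) = 1 := LinearMap.toMatrix_one b
    have h2 : (evalRingHom t).mapMatrix ((X : ℝ[X]) • M.map C + (1 : Matrix _ _ ℝ).map C) =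
        1 + t • M := by
      ext i j
      simp only [RingHom.mapMatrix_apply, Matrix.map_apply, Matrix.add_apply, Matrix.smul_apply,
        smul_eq_mul, coe_evalRingHom, eval_add, eval_mul, eval_X, eval_C]
      ring
    rw [h2]
    congr 1
    change 1 + t • M = LinearMap.toMatrix b b (1 + t • A)
    rw [map_add, map_smul, h1]

section Retraction

variable {E : Type*} [NormedAddCommGroup E] [InnerProductSpace ℝ E] [FiniteDimensional ℝ E]
  [MeasurableSpace E] [BorelSpace E]

omit [MeasurableSpace E] [BorelSpace E] in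
theorem det_pos_of_norm_lt (A : E →L[ℝ] E) (hA : ‖A‖ < 1) :
    0 < LinearMap.det ((1 + A : E →L[ℝ] E) : E →ₗ[ℝ] E) := by
  have hne : ∀ s ∈ Icc (0 : ℝ) 1,
      LinearMap.det ((1 + s • A : E →L[ℝ] E) : E →ₗ[ℝ] E) ≠ 0 := by
    intro s hs
    have hn : ‖-(s • A)‖ < 1 := by
      rw [norm_neg, norm_smul, Real.norm_of_nonneg hs.1]
      calc s * ‖A‖ ≤ 1 * ‖A‖ := mul_le_mul_of_nonneg_right hs.2 (norm_nonneg _)
        _ < 1 := by rwa [one_mul]
    have hu : IsUnit (1 + s • A : E →L[ℝ] E) := by
      have := isUnit_one_sub_of_norm_lt_one hn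
      rwa [sub_neg_eq_add] at this
    have hu2 : IsUnit ((1 + s • A : E →L[ℝ] E) : E →ₗ[ℝ] E) :=
      hu.map (ContinuousLinearMap.toLinearMapRingHom (R₁ := ℝ) (M₁ := E))
    exact (hu2.map (LinearMap.det : (E →ₗ[ℝ] E) →* ℝ)).ne_zero
  have hcont : Continuous fun s : ℝ => LinearMap.det ((1 + s • A : E →L[ℝ] E) : E →ₗ[ℝ] E) := by
    obtain ⟨q, -, hq⟩ := exists_poly_det (A : E →ₗ[ℝ] E)
    have : (fun s : ℝ => LinearMap.det ((1 + s • A : E →L[ℝ] E) : E →ₗ[ℝ] E)) =
        fun s => q.eval s := by
      funext s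
      rw [hq s]
      rfl
    rw [this]
    exact q.continuous
  by_contra hneg
  have h1 : LinearMap.det ((1 + (1 : ℝ) • A : E →L[ℝ] E) : E →ₗ[ℝ] E) ≤ 0 := by
    rw [one_smul]; exact not_lt.1 hneg
  have h0 : (0 : ℝ) ≤ LinearMap.det ((1 + (0 : ℝ) • A : E →L[ℝ] E) : E →ₗ[ℝ] E) := by
    rw [zero_smul, add_zero]
    have : ((1 : E →L[ℝ] E) : E →ₗ[ℝ] E) = 1 := rfl
    rw [this, map_one]
    exact zero_le_one
  obtain ⟨s, hs, hs0⟩ := intermediate_value_Icc' (zero_le_one' ℝ) hcont.continuousOn ⟨h1, h0⟩
  exact hne s hs hs0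

/-- There is no `C¹` map `r` on `E` with `r x = x` on the sphere of radius `ρ` and
`‖r x‖ = ρ` on the ball of radius `ρ`. -/
theorem no_smooth_retraction (r : E → E) (hr : ContDiff ℝ 1 r) (ρ : ℝ) (hρ : 0 < ρ)
    (hid : ∀ x, ‖x‖ = ρ → r x = x) (hsph : ∀ x, ‖x‖ ≤ ρ → ‖r x‖ = ρ) : False := by
  classical
  let μ : Measure E := volume
  let g : E → E := fun x => r x - x
  have hg : ContDiff ℝ 1 g := hr.sub contDiff_id
  have hgd : ∀ x, HasFDerivAt g (fderiv ℝ g x) x := fun x =>
    (hg.differentiable (by norm_num) x).hasFDerivAt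
  have hgc : Continuous (fderiv ℝ g) := hg.continuous_fderiv (by norm_num)
  let B : Set E := closedBall 0 ρ
  have hBc : IsCompact B := isCompact_closedBall 0 ρ
  obtain ⟨L, hL⟩ := hBc.exists_bound_of_continuousOn hgc.continuousOn
  have hL0 : 0 ≤ L := (norm_nonneg _).trans (hL 0 (by simp [B, hρ.le]))
  have hLip : ∀ x ∈ B, ∀ y ∈ B, ‖g y - g x‖ ≤ L * ‖y - x‖ := by
    intro x hx y hy
    exact (convex_closedBall (0 : E) ρ).norm_image_sub_le_of_norm_fderiv_le
      (fun z _ => hg.differentiable (by norm_num) z) (fun z hz => hL z hz) hx hy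
  let t₀ : ℝ := 1 / (2 * (L + 1))
  have ht₀ : 0 < t₀ := by positivity
  have ht₀1 : t₀ ≤ 1 := by
    simp only [t₀]
    rw [div_le_one (by positivity)]
    linarith
  have ht₀L : t₀ * L < 1 := by
    simp only [t₀]
    rw [div_mul_eq_mul_div, one_mul, div_lt_one (by positivity)]
    linarith
  let f : ℝ → E → E := fun t x => x + t • g x
  have hfd : ∀ t x, HasFDerivAt (f t) (1 + t • fderiv ℝ g x) x := by
    intro t x
    exact (hasFDerivAt_id x).add ((hgd x).const_smul t)
  have hfcd : ∀ t, ContDiff ℝ 1 (f t) := fun t => contDiff_id.add (contDiff_const.smul hg)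
  -- volume computation
  have hvol : ∀ t ∈ Icc (0 : ℝ) t₀,
      ∫ x in B, LinearMap.det ((1 + t • fderiv ℝ g x : E →L[ℝ] E) : E →ₗ[ℝ] E) ∂μ = μ.real B := by
    intro t ht
    have htL : t * L < 1 := lt_of_le_of_lt (mul_le_mul_of_nonneg_right ht.2 hL0) ht₀L
    have ht1 : t ≤ 1 := ht.2.trans ht₀1
    have hinj : InjOn (f t) B := by
      intro x hx y hy hxy
      have h1 : x - y = t • (g y - g x) := by
        simp only [f] at hxy
        rw [smul_sub, sub_eq_sub_iff_add_eq_add, hxy, add_comm]
      have h2 : ‖x - y‖ ≤ t * L * ‖x - y‖ := by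
        calc ‖x - y‖ = ‖t • (g y - g x)‖ := by rw [← h1]
          _ = t * ‖g y - g x‖ := by rw [norm_smul, Real.norm_of_nonneg ht.1]
          _ ≤ t * (L * ‖y - x‖) := mul_le_mul_of_nonneg_left (hLip x hx y hy) ht.1
          _ = t * L * ‖x - y‖ := by rw [norm_sub_rev]; ring
      have h3 : ‖x - y‖ = 0 := by
        by_contra hne
        have hpos : 0 < ‖x - y‖ := lt_of_le_of_ne (norm_nonneg _) (Ne.symm hne)
        nlinarith
      exact sub_eq_zero.1 (norm_eq_zero.1 h3)
    have hnorm : ∀ x ∈ B, ‖t • fderiv ℝ g x‖ < 1 := by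
      intro x hx
      rw [norm_smul, Real.norm_of_nonneg ht.1]
      exact lt_of_le_of_lt (mul_le_mul_of_nonneg_left (hL x hx) ht.1) htL
    have hdet : ∀ x ∈ B,
        0 < LinearMap.det ((1 + t • fderiv ℝ g x : E →L[ℝ] E) : E →ₗ[ℝ] E) := fun x hx =>
      det_pos_of_norm_lt _ (hnorm x hx)
    -- image
    have hmaps : ∀ x ∈ B, f t x ∈ B := by
      intro x hx
      have hx' : ‖x‖ ≤ ρ := by simpa [B] using hx
      have h1 : f t x = (1 - t) • x + t • r x := by
        simp only [f, g]
        rw [smul_sub, sub_smul, one_smul]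
        abel
      have h2 : ‖f t x‖ ≤ ρ := by
        rw [h1]
        calc ‖(1 - t) • x + t • r x‖ ≤ ‖(1 - t) • x‖ + ‖t • r x‖ := norm_add_le _ _
          _ = (1 - t) * ‖x‖ + t * ‖r x‖ := by
              rw [norm_smul, norm_smul, Real.norm_of_nonneg (by linarith),
                Real.norm_of_nonneg ht.1]
          _ ≤ (1 - t) * ρ + t * ρ := by
              rw [hsph x hx']
              have := mul_le_mul_of_nonneg_left hx' (by linarith : (0 : ℝ) ≤ 1 - t)
              linarith
          _ = ρ := by ring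
      simpa [B] using h2
    have hopen : IsOpen (f t '' ball 0 ρ) := by
      rw [isOpen_iff_mem_nhds]
      rintro _ ⟨x, hx, rfl⟩
      have hxB : x ∈ B := ball_subset_closedBall hx
      have hu : IsUnit (1 + t • fderiv ℝ g x : E →L[ℝ] E) := by
        have hn : ‖-(t • fderiv ℝ g x)‖ < 1 := by rw [norm_neg]; exact hnorm x hxB
        have := isUnit_one_sub_of_norm_lt_one hn
        rwa [sub_neg_eq_add] at this
      obtain ⟨e, he⟩ := ContinuousLinearMap.isUnit_iff_bijective.1 hu |> fun hbij =>
        (⟨ContinuousLinearEquiv.ofBijective (1 + t • fderiv ℝ g x : E →L[ℝ] E)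
          (LinearMap.ker_eq_bot.2 hbij.1) (LinearMap.range_eq_top.2 hbij.2),
          ContinuousLinearEquiv.coe_ofBijective _ _ _⟩ :
          ∃ e : E ≃L[ℝ] E, (e : E →L[ℝ] E) = 1 + t • fderiv ℝ g x)
      have hs : HasStrictFDerivAt (f t) (e : E →L[ℝ] E) x := by
        rw [he]
        exact (hfcd t).contDiffAt.hasStrictFDerivAt' (hfd t x) (by norm_num)
      have := hs.map_nhds_eq_of_equiv
      rw [← this]
      exact image_mem_map (isOpen_ball.mem_nhds hx)
    have hcompact : IsCompact (f t '' B) := hBc.image (hfcd t).continuous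
    have hsub : f t '' ball 0 ρ ⊆ ball 0 ρ := by
      have h1 : f t '' ball 0 ρ ⊆ closedBall 0 ρ := by
        rintro _ ⟨x, hx, rfl⟩
        exact hmaps x (ball_subset_closedBall hx)
      have h2 := hopen.subset_interior_iff.2 h1
      rwa [interior_closedBall (0 : E) hρ.ne'] at h2
    have hball : ball (0 : E) ρ ⊆ f t '' ball 0 ρ := by
      refine (convex_ball (0 : E) ρ).isPreconnected.subset_of_closure_inter_subset hopen ?_ ?_
      · refine ⟨f t 0, hsub ⟨0, mem_ball_self hρ, rfl⟩, ⟨0, mem_ball_self hρ, rfl⟩⟩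
      · rintro y ⟨hy1, hy2⟩
        have h3 : y ∈ f t '' B := by
          have : closure (f t '' ball 0 ρ) ⊆ f t '' B :=
            closure_minimal (image_mono ball_subset_closedBall) hcompact.isClosed
          exact this hy1
        obtain ⟨x, hx, rfl⟩ := h3
        have hx' : ‖x‖ ≤ ρ := by simpa [B] using hx
        rcases hx'.lt_or_eq with h4 | h4
        · exact ⟨x, by simpa using h4, rfl⟩
        · exfalso
          have h5 : f t x = x := by
            simp only [f, g]
            rw [hid x h4, sub_self, smul_zero, add_zero]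
          rw [h5] at hy2
          have : ‖x‖ < ρ := by simpa using hy2
          linarith
    have himg : f t '' B = B := by
      apply Subset.antisymm
      · rintro _ ⟨x, hx, rfl⟩
        exact hmaps x hx
      · have h1 : closure (ball (0 : E) ρ) ⊆ f t '' B :=
          closure_minimal (hball.trans (image_mono ball_subset_closedBall)) hcompact.isClosed
        rwa [closure_ball (0 : E) hρ.ne'] at h1
    have hcv := lintegral_abs_det_fderiv_eq_addHaar_image μ (s := B) isClosed_closedBall.measurableSet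
      (f := f t) (f' := fun x => 1 + t • fderiv ℝ g x)
      (fun x _ => (hfd t x).hasFDerivWithinAt) hinj
    rw [himg] at hcv
    rw [integral_eq_lintegral_of_nonneg_ae]
    · rw [Measure.real, ← hcv]
      congr 1
      refine setLIntegral_congr_fun isClosed_closedBall.measurableSet ?_
      intro x hx
      simp only
      rw [← abs_of_pos (hdet x hx)]
    · refine (ae_restrict_iff' isClosed_closedBall.measurableSet).2 (Eventually.of_forall ?_)
      intro x hx
      exact (hdet x hx).le
    · refine (Continuous.aestronglyMeasurable ?_)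
      have h1 : Continuous fun x => (1 + t • fderiv ℝ g x : E →L[ℝ] E) := by fun_prop
      exact ContinuousLinearMap.continuous_det.comp h1
  -- interpolation
  have hpoly : ∀ x, ∃ q : ℝ[X], q.natDegree ≤ Module.finrank ℝ E ∧
      ∀ t : ℝ, q.eval t = LinearMap.det ((1 + t • fderiv ℝ g x : E →L[ℝ] E) : E →ₗ[ℝ] E) := by
    intro x
    obtain ⟨q, hq1, hq2⟩ := exists_poly_det (fderiv ℝ g x : E →ₗ[ℝ] E)
    exact ⟨q, hq1, fun t => by rw [hq2 t]; rfl⟩
  choose q hqdeg hqeval using hpoly
  let s : Finset ℕ := Finset.range (Module.finrank ℝ E + 1)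
  let v : ℕ → ℝ := fun i => t₀ * (i / (Module.finrank ℝ E + 1 : ℝ))
  have hvinj : Set.InjOn v s := by
    intro i _ j _ hij
    simp only [v] at hij
    have h1 := mul_left_cancel₀ ht₀.ne' hij
    have h2 : (Module.finrank ℝ E + 1 : ℝ) ≠ 0 := by positivity
    have h3 := (div_left_inj' h2).1 h1
    exact_mod_cast h3
  have hvmem : ∀ i ∈ s, v i ∈ Icc (0 : ℝ) t₀ := by
    intro i hi
    simp only [s, Finset.mem_range] at hi
    simp only [v]
    have h2 : (0 : ℝ) < (Module.finrank ℝ E + 1 : ℝ) := by positivity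
    have h3 : (i : ℝ) ≤ Module.finrank ℝ E + 1 := by exact_mod_cast hi.le
    constructor
    · positivity
    · have : (i / (Module.finrank ℝ E + 1 : ℝ)) ≤ 1 := by rw [div_le_one h2]; exact h3
      nlinarith
  have hinterp : ∀ x, (q x).eval 1 = ∑ i ∈ s, (q x).eval (v i) * (Lagrange.basis s v i).eval 1 := by
    intro x
    have hdeg : (q x).degree < s.card := by
      refine lt_of_le_of_lt degree_le_natDegree ?_
      simp only [s, Finset.card_range]
      exact_mod_cast Nat.lt_succ_of_le (hqdeg x)
    conv_lhs => rw [Lagrange.eq_interpolate hvinj hdeg]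
    rw [Lagrange.interpolate_apply, eval_finsetSum]
    refine Finset.sum_congr rfl fun i _ => ?_
    rw [eval_mul, eval_C]
  have hcontq : ∀ t : ℝ, Continuous fun x => (q x).eval t := by
    intro t
    have : (fun x => (q x).eval t) =
        fun x => LinearMap.det ((1 + t • fderiv ℝ g x : E →L[ℝ] E) : E →ₗ[ℝ] E) := by
      funext x; exact hqeval x t
    rw [this]
    have h1 : Continuous fun x => (1 + t • fderiv ℝ g x : E →L[ℝ] E) := by fun_prop
    exact ContinuousLinearMap.continuous_det.comp h1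
  have hint1 : ∫ x in B, (q x).eval 1 ∂μ = μ.real B := by
    have h1 : ∫ x in B, (q x).eval 1 ∂μ =
        ∑ i ∈ s, (∫ x in B, (q x).eval (v i) ∂μ) * (Lagrange.basis s v i).eval 1 := by
      have h2 : ∀ x, (q x).eval 1 =
        ∑ i ∈ s, (q x).eval (v i) * (Lagrange.basis s v i).eval 1 := hinterp
      simp_rw [h2]
      rw [integral_finsetSum]
      · refine Finset.sum_congr rfl fun i _ => ?_
        rw [integral_mul_const]
      · intro i _
        exact ((hcontq (v i)).mul continuous_const).continuousOn.integrableOn_compact hBc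
    rw [h1]
    have h3 : ∀ i ∈ s, (∫ x in B, (q x).eval (v i) ∂μ) * (Lagrange.basis s v i).eval 1 =
        μ.real B * (Lagrange.basis s v i).eval 1 := by
      intro i hi
      have : (∫ x in B, (q x).eval (v i) ∂μ) = μ.real B := by
        rw [← hvol (v i) (hvmem i hi)]
        refine integral_congr_ae (Eventually.of_forall ?_)
        intro x
        exact hqeval x (v i)
      rw [this]
    rw [Finset.sum_congr rfl h3, ← Finset.mul_sum, ← eval_finsetSum,
      Lagrange.sum_basis hvinj ⟨0, by simp [s]⟩, eval_one, mul_one]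
  -- but the determinant of `fderiv r` vanishes
  have hzero : ∀ x ∈ ball (0 : E) ρ, (q x).eval 1 = 0 := by
    intro x hx
    rw [hqeval x 1, one_smul]
    by_contra hne
    have hx' : ‖x‖ < ρ := by simpa using hx
    have hrx : ‖r x‖ = ρ := hsph x hx'.le
    have hd : HasFDerivAt r (1 + fderiv ℝ g x) x := by
      have h1 := hfd 1 x
      rw [one_smul] at h1
      refine h1.congr_of_eventuallyEq (Eventually.of_forall fun y => ?_)
      simp only [f, g, one_smul]
      abel
    have hconst : (fun y => ‖r y‖ ^ 2) =ᶠ[𝓝 x] fun _ => ρ ^ 2 := by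
      filter_upwards [isOpen_ball.mem_nhds hx] with y hy
      have hy' : ‖y‖ < ρ := by simpa using hy
      rw [hsph y hy'.le]
    have hd2 := hd.norm_sq
    have hd3 : HasFDerivAt (fun y => ‖r y‖ ^ 2) (0 : E →L[ℝ] ℝ) x :=
      (hasFDerivAt_const (ρ ^ 2) x).congr_of_eventuallyEq hconst
    have heq := hd2.unique hd3
    obtain ⟨w, hw⟩ : ∃ w, (1 + fderiv ℝ g x : E →L[ℝ] E) w = r x := by
      have hsurj : Function.Surjective ((1 + fderiv ℝ g x : E →L[ℝ] E) : E →ₗ[ℝ] E) :=
        (LinearMap.equivOfDetNeZero _ hne).surjective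
      exact hsurj (r x)
    have h5 := congrArg (fun A : E →L[ℝ] ℝ => A w) heq
    simp only [smul_apply, ContinuousLinearMap.comp_apply,
      zero_apply, innerSL_apply_apply] at h5
    rw [hw, real_inner_self_eq_norm_sq, hrx] at h5
    have : (0 : ℝ) < ρ ^ 2 := by positivity
    simp at h5
    exact hρ.ne' h5
  have hzero' : ∫ x in B, (q x).eval 1 ∂μ = 0 := by
    have hsphere : μ (sphere (0 : E) ρ) = 0 := Measure.addHaar_sphere_of_ne_zero μ 0 hρ.ne'
    have h1 : B =ᵐ[μ] ball (0 : E) ρ := by
      rw [ae_eq_set]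
      constructor
      · rw [closedBall_sdiff_ball]; exact hsphere
      · rw [sdiff_eq_empty.2 ball_subset_closedBall, measure_empty]
    rw [setIntegral_congr_set h1]
    exact setIntegral_eq_zero_of_forall_eq_zero hzero
  rw [hzero'] at hint1
  have hpos : 0 < μ.real B := by
    rw [Measure.real, ENNReal.toReal_pos_iff]
    refine ⟨?_, hBc.measure_lt_top⟩
    exact (measure_closedBall_pos μ 0 hρ)
  linarith

/-- A continuous map `H : E → E` that is the identity outside some ball has a zero. -/
theorem exists_zero (H : E → E) (hc : Continuous H) (R : ℝ) (hR : ∀ x, R ≤ ‖x‖ → H x = x) :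
    ∃ x, H x = 0 := by
  by_contra hcon
  push Not at hcon
  wlog hR1 : 1 ≤ R generalizing R
  · exact this (max R 1) (fun x hx => hR x ((le_max_left _ _).trans hx)) (le_max_right _ _)
  have hR0 : 0 < R := by linarith
  -- minimum of the norm
  obtain ⟨m, hm0, hm⟩ : ∃ m > 0, ∀ x, m ≤ ‖H x‖ := by
    obtain ⟨x₀, -, hx₀⟩ := (isCompact_closedBall (0 : E) R).exists_isMinOn
      ⟨0, by simp [hR0.le]⟩ (hc.norm.continuousOn)
    refine ⟨min ‖H x₀‖ 1, lt_min (norm_pos_iff.2 (hcon x₀)) one_pos, ?_⟩
    intro x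
    rcases le_total ‖x‖ R with h | h
    · exact (min_le_left _ _).trans (hx₀ (by simpa using h))
    · rw [hR x h]
      exact (min_le_right _ _).trans (hR1.trans h)
  let u : E → E := fun x => H x - x
  have hu : Continuous u := hc.sub continuous_id
  have hus : ∀ x, R ≤ ‖x‖ → u x = 0 := fun x hx => by simp only [u]; rw [hR x hx, sub_self]
  have hucs : HasCompactSupport u := by
    refine HasCompactSupport.intro (isCompact_closedBall (0 : E) R) ?_
    intro x hx
    refine hus x ?_
    have : ¬ ‖x‖ ≤ R := by simpa using hx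
    exact (not_le.1 this).le
  have huu : UniformContinuous u := hucs.uniformContinuous_of_continuous hu
  obtain ⟨w, hw, hwu⟩ := huu.exists_contDiff_dist_le (ε := min (m / 2) (1 / 2)) (by positivity)
  let χ : ContDiffBump (0 : E) := ⟨R, R + 1, hR0, by linarith⟩
  let G : E → E := fun x => x + χ x • w x
  have hG : ContDiff ℝ 1 G := by
    refine contDiff_id.add (ContDiff.smul ?_ ?_)
    · exact χ.contDiff
    · exact hw.of_le (by exact_mod_cast le_top)
  have hwu' : ∀ x, ‖w x - u x‖ ≤ min (m / 2) (1 / 2) := by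
    intro x
    rw [← dist_eq_norm]
    exact (hwu x).le
  have hG0 : ∀ x, G x ≠ 0 := by
    intro x hx
    rcases le_total ‖x‖ R with h | h
    · have h1 : χ x = 1 := χ.one_of_mem_closedBall (by simpa using h)
      simp only [G] at hx
      rw [h1, one_smul] at hx
      have h2 : H x = -(w x - u x) := by
        simp only [u]
        have : w x = -x := by
          rw [add_comm] at hx
          exact eq_neg_of_add_eq_zero_left hx
        rw [this]; abel
      have h3 : ‖H x‖ ≤ m / 2 := by
        rw [h2, norm_neg]; exact (hwu' x).trans (min_le_left _ _)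
      have := hm x
      linarith
    · have h1 : ‖χ x • w x‖ ≤ 1 / 2 := by
        rw [norm_smul, Real.norm_of_nonneg χ.nonneg]
        have h2 : ‖w x‖ ≤ 1 / 2 := by
          have h3 := hwu' x
          rw [hus x h, sub_zero] at h3
          exact h3.trans (min_le_right _ _)
        calc χ x * ‖w x‖ ≤ 1 * ‖w x‖ := mul_le_mul_of_nonneg_right χ.le_one (norm_nonneg _)
          _ ≤ 1 / 2 := by rwa [one_mul]
      have h4 : x = -(χ x • w x) := eq_neg_of_add_eq_zero_left hx
      have h5 : ‖x‖ ≤ 1 / 2 := by rw [h4, norm_neg]; exact h1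
      linarith
  have hGid : ∀ x, ‖x‖ = R + 1 → G x = x := by
    intro x hx
    have h1 : χ x = 0 := χ.zero_of_le_dist (by simp [χ, hx])
    simp only [G]
    rw [h1, zero_smul, add_zero]
  let r : E → E := fun x => ((R + 1) / ‖G x‖) • G x
  refine no_smooth_retraction r ?_ (R + 1) (by linarith) ?_ ?_
  · refine ContDiff.smul ?_ hG
    refine contDiff_const.div ?_ ?_
    · exact hG.norm ℝ hG0
    · intro x; exact norm_ne_zero_iff.2 (hG0 x)
  · intro x hx
    simp only [r]
    rw [hGid x hx, hx, div_self (by linarith), one_smul]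
  · intro x _
    simp only [r]
    rw [norm_smul, norm_div, norm_norm, Real.norm_of_nonneg (by linarith),
      div_mul_cancel₀ _ (norm_ne_zero_iff.2 (hG0 x))]

/-- Brouwer's fixed point theorem for the closed unit ball. -/
theorem fixed_point (f : E → E) (hf : ContinuousOn f (closedBall 0 1))
    (hmaps : ∀ x, ‖x‖ ≤ 1 → ‖f x‖ ≤ 1) : ∃ x, ‖x‖ ≤ 1 ∧ f x = x := by
  let P : E → E := fun x => (1 / max 1 ‖x‖) • x
  have hPc : Continuous P := by
    refine Continuous.smul (continuous_const.div (continuous_const.max continuous_norm) ?_)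
      continuous_id
    intro x
    exact (lt_of_lt_of_le one_pos (le_max_left _ _)).ne'
  have hP1 : ∀ x, ‖P x‖ ≤ 1 := by
    intro x
    have h0 : 0 < max 1 ‖x‖ := lt_of_lt_of_le one_pos (le_max_left _ _)
    simp only [P]
    rw [norm_smul, Real.norm_of_nonneg (by positivity), div_mul_eq_mul_div, one_mul,
      div_le_one h0]
    exact le_max_right _ _
  have hPid : ∀ x, ‖x‖ ≤ 1 → P x = x := by
    intro x hx
    simp only [P]
    rw [max_eq_left hx, div_one, one_smul]
  let c : E → ℝ := fun x => min 1 (max 0 (2 - ‖x‖))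
  have hcc : Continuous c := by fun_prop
  have hc0 : ∀ x, 0 ≤ c x := fun x => le_min zero_le_one (le_max_left _ _)
  have hc1 : ∀ x, c x ≤ 1 := fun x => min_le_left _ _
  obtain ⟨x, hx⟩ := exists_zero (fun x => x - c x • f (P x)) (by
    refine continuous_id.sub (hcc.smul ?_)
    exact hf.comp_continuous hPc (fun x => by simpa using hP1 x)) 2 (by
    intro x hx
    have h1 : c x = 0 := by
      simp only [c]
      rw [max_eq_left (by linarith), min_eq_right zero_le_one]
    simp only [h1, zero_smul, sub_zero])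
  have hx' : x = c x • f (P x) := sub_eq_zero.1 hx
  have hxn : ‖x‖ ≤ 1 := by
    rw [hx', norm_smul, Real.norm_of_nonneg (hc0 x)]
    calc c x * ‖f (P x)‖ ≤ 1 * 1 :=
          mul_le_mul (hc1 x) (hmaps _ (hP1 x)) (norm_nonneg _) zero_le_one
      _ = 1 := one_mul 1
  refine ⟨x, hxn, ?_⟩
  have h2 : c x = 1 := by
    simp only [c]
    rw [max_eq_right (by linarith), min_eq_left (by linarith)]
  rw [h2, one_smul, hPid x hxn] at hx'
  exact hx'.symm

end Retraction

end Pool.Agent.Helper44.Brouwer
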